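import Pool.Agent.Helper3.AK.Defs

/-!
# Gaps on tuples and additional generators (project FS, MP_75608d_al)

A gap on `r`-tuples for `z : Fin k → Alt n` is a gap for `z` together with `q` arbitrary further
permutations, with the constant multiplied by `k / (k + q)`.
-/

set_option autoImplicit false

namespace Pool.Agent.Helper43.FS

open Finset Equiv
open Pool.Agent.Helper3.AK (Alt TupleGap tupleWalk)

variable {n : ℕ}

/-- the quadratic form of one permutation is at most the square of the norm -/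
theorem form_le {r : ℕ} (φ : (Fin r ↪ Fin n) → ℝ) (g : Perm (Fin n)) :
    ∑ a, φ a * φ (a.trans g.toEmbedding) ≤ ∑ a, φ a ^ 2 := by
  have hb : ∑ a : Fin r ↪ Fin n, φ (a.trans g.toEmbedding) ^ 2 = ∑ a, φ a ^ 2 := by
    refine Fintype.sum_bijective (fun a : Fin r ↪ Fin n => a.trans g.toEmbedding) ?_ _ _
      fun a => rfl
    constructor
    · intro a b h
      ext i
      have h1 := congrArg (fun e : Fin r ↪ Fin n => e i) h
      exact congrArg Fin.val (g.injective h1)
    · intro b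
      refine ⟨b.trans (g⁻¹ : Perm (Fin n)).toEmbedding, ?_⟩
      ext i
      show ((g (g⁻¹ (b i)) : Fin n) : ℕ) = _
      simp
  have h : ∀ a : Fin r ↪ Fin n, φ a * φ (a.trans g.toEmbedding) ≤
      (φ a ^ 2 + φ (a.trans g.toEmbedding) ^ 2) / 2 := fun a => by
    nlinarith [sq_nonneg (φ a - φ (a.trans g.toEmbedding))]
  calc ∑ a, φ a * φ (a.trans g.toEmbedding) ≤
      ∑ a : Fin r ↪ Fin n, (φ a ^ 2 + φ (a.trans g.toEmbedding) ^ 2) / 2 := sum_le_sum fun a _ => h a
    _ = ∑ a, φ a ^ 2 := by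
      rw [← sum_div, sum_add_distrib, hb]
      ring

/-- the form of the walk -/
theorem walk_form {k r : ℕ} (z : Fin k → Alt n) (φ : (Fin r ↪ Fin n) → ℝ) :
    ∑ a, φ a * tupleWalk z r φ a = (2 * (k : ℝ))⁻¹ * ∑ i,
      (∑ a, φ a * φ (a.trans (z i : Perm (Fin n)).toEmbedding) +
        ∑ a, φ a * φ (a.trans ((z i)⁻¹ : Perm (Fin n)).toEmbedding)) := by
  unfold tupleWalk
  simp only [← sum_add_distrib]
  rw [sum_comm, mul_sum]
  apply sum_congr rfl
  intro a _
  rw [mul_left_comm, mul_sum]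
  congr 1
  apply sum_congr rfl
  intro i _
  ring

theorem tupleGap_append {k q r : ℕ} (hk : 0 < k) (z : Fin k → Alt n) (y : Fin q → Alt n) {ε : ℝ}
    (h : TupleGap z r ε) : TupleGap (Fin.append z y) r (ε * (k / (k + q))) := by
  intro φ hφ
  have h1 := h φ hφ
  rw [walk_form] at h1 ⊢
  rw [Fin.sum_univ_add]
  simp only [Fin.append_left, Fin.append_right]
  obtain ⟨A, hA⟩ : ∃ A : ℝ, A = ∑ i,
      (∑ a, φ a * φ (a.trans (z i : Perm (Fin n)).toEmbedding) +
        ∑ a, φ a * φ (a.trans ((z i)⁻¹ : Perm (Fin n)).toEmbedding)) := ⟨_, rfl⟩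
  obtain ⟨S, hS⟩ : ∃ S : ℝ, S = ∑ a, φ a ^ 2 := ⟨_, rfl⟩
  have h2 : ∑ i, (∑ a, φ a * φ (a.trans (y i : Perm (Fin n)).toEmbedding) +
        ∑ a, φ a * φ (a.trans ((y i)⁻¹ : Perm (Fin n)).toEmbedding)) ≤ 2 * q * S := by
    calc _ ≤ ∑ _i : Fin q, 2 * S := by
          apply sum_le_sum
          intro i _
          have h3 := form_le φ (y i : Perm (Fin n))
          have h4 := form_le φ ((y i)⁻¹ : Perm (Fin n))
          rw [hS]
          linarith
      _ = 2 * q * S := by
          rw [sum_const, card_univ, Fintype.card_fin, nsmul_eq_mul]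
          ring
  rw [← hA, ← hS] at h1
  rw [← hA, ← hS]
  have hk' : (0 : ℝ) < k := by exact_mod_cast hk
  have hq' : (0 : ℝ) ≤ q := Nat.cast_nonneg _
  have h3 : A ≤ 2 * k * ((1 - ε) * S) := by
    have := mul_le_mul_of_nonneg_left h1 (by positivity : (0 : ℝ) ≤ 2 * k)
    rw [← mul_assoc, mul_inv_cancel₀ (by positivity), one_mul] at this
    exact this
  push_cast
  calc (2 * ((k : ℝ) + q))⁻¹ * (A + _) ≤ (2 * ((k : ℝ) + q))⁻¹ * (2 * k * ((1 - ε) * S) + 2 * q * S) :=
        mul_le_mul_of_nonneg_left (add_le_add h3 h2) (by positivity)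
    _ = (1 - ε * (k / (k + q))) * S := by
      field_simp
      ring

theorem tupleGap_snoc {k r : ℕ} (hk : 0 < k) (z : Fin k → Alt n) (y : Alt n) {ε : ℝ}
    (h : TupleGap z r ε) : TupleGap (Fin.snoc z y : Fin (k + 1) → Alt n) r (ε * (k / (k + 1))) := by
  have h1 := tupleGap_append hk z (fun _ : Fin 1 => y) h
  have h2 : (Fin.append z fun _ : Fin 1 => y) = (Fin.snoc z y : Fin (k + 1) → Alt n) := by
    funext i
    refine Fin.lastCases ?_ (fun i => ?_) i
    · rw [Fin.snoc_last]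
      exact Fin.append_right z (fun _ : Fin 1 => y) 0
    · rw [Fin.snoc_castSucc]
      exact Fin.append_left z (fun _ : Fin 1 => y) i
  rw [h2] at h1
  simpa using h1

end Pool.Agent.Helper43.FS
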