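import Pool.Agent.Helper13.FS.Rp
import Pool.Agent.Helper1.TP.Goals

/-!
# Two independent blocks rarely agree at many places (project FS, MP_75608d_al, middle levels)

`p1_le`: the probability that two independent words of `t0` lazy steps agree at more than `f` places
is at most `rp z (2 t0) s` times `(n)_s / (f+1)_s`.
-/

set_option autoImplicit false

namespace Pool.Agent.Helper43.FS

open Finset Equiv
open Pool.Agent.Helper3.AK (Alt lazyLaw)
open Pool.Agent.Helper38.FS (rp up)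
open Pool.Agent.Helper13.FS
open Pool.Agent.Helper35.MP
open Pool.Agent.Helper1.TP (agr)

variable {n k : ℕ}

theorem agr_fx (A B : Perm (Fin n)) : fx (B⁻¹ * A) = agr A B := by
  unfold fx agr
  congr 1
  apply filter_congr
  intro h _
  show B⁻¹ (A h) = h ↔ A h = B h
  exact Perm.inv_eq_iff_eq

theorem lz0_nn (hk : 0 < k) (z : Fin k → Alt n) (t : ℕ) (g : Perm (Fin n)) : 0 ≤ lz0 (up z) t g := by
  have : Nonempty (Fin k) := ⟨⟨0, hk⟩⟩
  exact law_nn (gl (up z)) (lwt_Wt (up z) (θ := 1 / 2) (by norm_num) (by norm_num)) t g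

theorem lz0_one (hk : 0 < k) (z : Fin k → Alt n) (t : ℕ) : ∑ g, lz0 (up z) t g = 1 := by
  have : Nonempty (Fin k) := ⟨⟨0, hk⟩⟩
  exact law_one (gl (up z)) (lwt_Wt (up z) (θ := 1 / 2) (by norm_num) (by norm_num)) t

/-- the average of the falling factorials of the number of agreements -/
theorem sum_agr (hk : 0 < k) (z : Fin k → Alt n) (t0 s : ℕ) :
    ∑ A : Perm (Fin n), ∑ B : Perm (Fin n), lz0 (up z) t0 A * lz0 (up z) t0 B *
      ((agr A B).descFactorial s : ℝ) = rp z (2 * t0) s * (n.descFactorial s : ℝ) := by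
  have h1 := ret_rp_old hk z s t0
  rw [sum_ret_tup, card_tup, Fintype.card_fin] at h1
  rw [← h1]
  have h2 : ∀ a : Fin t0 → Option (Fin k × Bool), ∑ b : Fin t0 → Option (Fin k × Bool),
      (∏ j, lwt (Fin k) (1 / 2) (a j)) * (∏ j, lwt (Fin k) (1 / 2) (b j)) *
        ((fx ((wd (gl (up z)) t0 b)⁻¹ * wd (gl (up z)) t0 a)).descFactorial s : ℝ) =
      (∏ j, lwt (Fin k) (1 / 2) (a j)) * ∑ B : Perm (Fin n), lz0 (up z) t0 B *
        ((agr (wd (gl (up z)) t0 a) B).descFactorial s : ℝ) := by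
    intro a
    unfold lz0
    rw [sum_law (gl (up z)) (lwt (Fin k) (1 / 2)) t0 fun B =>
      ((agr (wd (gl (up z)) t0 a) B).descFactorial s : ℝ), mul_sum]
    apply sum_congr rfl
    intro b _
    rw [agr_fx, mul_assoc]
  rw [sum_congr rfl fun a _ => h2 a]
  have h3 := sum_law (gl (up z)) (lwt (Fin k) (1 / 2)) t0 fun A =>
    ∑ B : Perm (Fin n), lz0 (up z) t0 B * ((agr A B).descFactorial s : ℝ)
  rw [← h3]
  apply sum_congr rfl
  intro A _
  rw [mul_sum]
  apply sum_congr rfl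
  intro B _
  rw [← mul_assoc]
  rfl

theorem p1_le (hk : 0 < k) (z : Fin k → Alt n) (t0 s f : ℕ) (hs : s ≤ f + 1) :
    ∑ A : Perm (Fin n), ∑ B : Perm (Fin n),
      (if f < agr A B then lz0 (up z) t0 A * lz0 (up z) t0 B else 0) ≤
    rp z (2 * t0) s * ((n.descFactorial s : ℝ) / ((f + 1).descFactorial s : ℝ)) := by
  have hD : (0 : ℝ) < (f + 1).descFactorial s := by
    exact_mod_cast Nat.descFactorial_pos.2 hs
  rw [← mul_div_assoc, ← sum_agr hk z t0 s, le_div_iff₀ hD, sum_mul]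
  apply sum_le_sum
  intro A _
  rw [sum_mul]
  apply sum_le_sum
  intro B _
  have h0 : 0 ≤ lz0 (up z) t0 A * lz0 (up z) t0 B := mul_nonneg (lz0_nn hk z t0 A) (lz0_nn hk z t0 B)
  split_ifs with h
  · apply mul_le_mul_of_nonneg_left _ h0
    exact_mod_cast Nat.descFactorial_le s (Nat.succ_le_of_lt h)
  · rw [zero_mul]
    exact mul_nonneg h0 (Nat.cast_nonneg _)

/-- falling factorials -/
theorem df_ratio {n f s : ℕ} {a : ℝ} (ha : 0 < a) (hsf : s ≤ f + 1)
    (h : a * n ≤ (f : ℝ) + 1 - s) (hn : 0 < n) :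
    (n.descFactorial s : ℝ) / ((f + 1).descFactorial s : ℝ) ≤ (1 / a) ^ s := by
  have hn' : (0 : ℝ) < n := by exact_mod_cast hn
  have hD : (0 : ℝ) < (f + 1).descFactorial s := by
    exact_mod_cast Nat.descFactorial_pos.2 hsf
  rw [div_le_iff₀ hD]
  have h1 : (n.descFactorial s : ℝ) ≤ (n : ℝ) ^ s := by exact_mod_cast Nat.descFactorial_le_pow n s
  have h2 : (a * n) ^ s ≤ ((f + 1).descFactorial s : ℝ) := by
    have h3 : (f + 1 + 1 - s) ^ s ≤ (f + 1).descFactorial s := Nat.pow_sub_le_descFactorial (f + 1) s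
    have h4 : a * n ≤ ((f + 1 + 1 - s : ℕ) : ℝ) := by
      rw [Nat.cast_sub (by omega)]
      push_cast
      linarith
    calc (a * n) ^ s ≤ ((f + 1 + 1 - s : ℕ) : ℝ) ^ s := pow_le_pow_left₀ (by positivity) h4 s
      _ ≤ _ := by exact_mod_cast h3
  calc (n.descFactorial s : ℝ) ≤ (n : ℝ) ^ s := h1
    _ = (1 / a) ^ s * (a * n) ^ s := by
      rw [← mul_pow]
      congr 1
      field_simp
    _ ≤ _ := mul_le_mul_of_nonneg_left h2 (by positivity)

end Pool.Agent.Helper43.FS
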